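import Pool.Agent.H82.AJ.Main
import Pool.Agent.H82.AJ.Sub
import Pool.Agent.H82.AJ.Law

/-!
# Joint laws and infinite towers for the Abel–Jacobi isomorphism of the twists of level 15 over
# multiquadratic fields

The case `i = 0`, `p = 2`: the curve `X` is an elliptic curve `E` over the number field `F`, and the
Abel–Jacobi map is the Kummer map `ℚ₂ ⊗ E(F) → H¹_f(F, V₂ E)`.

The curves `E_D : y² = x³ - 12987 D² x - 263466 D³` are the quadratic twists of a curve of conductor `15`
all the points of order two of which are rational, and which has a rational cyclic isogeny of degree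
four. The class: the squarefree integers `≡ 1, 49` modulo `60`. Let `M_1, …, M_k` and `D` be in the class and
`F = ℚ(√M_1, …, √M_k)`. If the squarefree parts of the `2 ^ k` numbers `D ∏_{i ∈ T} M_i` satisfy an
explicit criterion (then `D`, `M` are called good), then the Abel–Jacobi map of `E_D` over `F` is an
isomorphism (of zero spaces). Let the `M_i` be independent modulo squares, and `c₁ = ∏_{i ≥ 1} (1 - 2 ^ {-i})`,
that is `0.288…`.

* For a fixed field `F`, exactly the proportion `c₁ ^ (2 ^ k)` of all `D` of the class is good.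
* For a fixed curve `E_D` and a fixed field `F` which are good, exactly the proportion `c₁ ^ (2 ^ k)` of all
  `N` of the class is such that `E_D` and `F(√N)` are good. (For `k = 0`: the quadratic fields `ℚ(√N)`.)
* For every good `D` there is an infinite extension `ℚ(√M_0, √M_1, …)`, `M_i` independent modulo squares,
  such that the Abel–Jacobi map of `E_D` is an isomorphism over all the number fields in it.

The proofs use the two-descent over `ℚ` and the joint distribution of the twists from modules of helper3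
and of earlier runs (`Pool.Agent.H3`, `Pool.Graph.R_pool_sql_team_seeded_620a6dc7`), the theorem of
`X307` on the Abel–Jacobi map and the Tate–Shafarevich group, and the restriction to the twists over `ℚ`.
-/

set_option autoImplicit false

namespace Pool.Agent.Results.MP_787500_nt.AbelJacobiTwistsLevel15

open NumberField Finset Filter
open Pool.Agent.X307 (AJIso H1f)
open Pool.Agent.TH841.SH.D (Pt)
open scoped Classical

/-- the curve `E_D : y² = x³ - 12987 D² x - 263466 D³` over the field `K` -/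
def curve (K : Type) [Field K] (D : ℕ) : WeierstrassCurve K :=
  { a₁ := 0, a₂ := 0, a₃ := 0, a₄ := ((-12987 * (D : ℤ) ^ 2 : ℤ) : K),
    a₆ := ((-263466 * (D : ℤ) ^ 3 : ℤ) : K) }

/-- `W` is an elliptic curve over `K`, the 2-adic Abel–Jacobi map `ℚ₂ ⊗ W(K) → H¹_f(K, V₂ W)` is an
isomorphism of vector spaces over `ℚ₂`, the group `W(K)` is finite, and `H¹_f(K, V₂ W)` is zero. -/
def AJZero (K : Type) [Field K] [NumberField K] (W : WeierstrassCurve K) : Prop :=
  W.IsElliptic ∧ AJIso 2 W ∧ Finite (Pt W K) ∧ ∀ x : H1f 2 W, x = 0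

/-- the Abel–Jacobi map of `E_D` is an isomorphism, the two spaces being zero, over every number field
`F` which is generated by square roots of the integers `M_1, …, M_k` -/
def AJOver {k : ℕ} (M : Fin k → ℕ) (D : ℕ) : Prop :=
  ∀ (F : Type) [Field F] [NumberField F] (r : Fin k → F), (∀ i, r i ^ 2 = (M i : F)) →
    IntermediateField.adjoin ℚ (Set.range r) = ⊤ → AJZero F (curve F D)

/-- the class: squarefree, `≡ 1` or `49` modulo `60` -/
def Cls (D : ℕ) : Prop := Squarefree D ∧ (D % 60 = 1 ∨ D % 60 = 49)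

/-- the criterion -/
def Good15 (D : ℕ) : Prop := ∀ d : ℕ, d ∣ D →
  (∀ p : ℕ, p.Prime → p ∣ D → ¬ p ∣ d → jacobiSym d p = 1) →
  (∀ p : ℕ, p.Prime → p ∣ d → jacobiSym (-((D / d : ℕ) : ℤ)) p = 1) →
  jacobiSym d 5 = 1 → d = 1

/-- all the squarefree parts `e` of the numbers `D ∏_{i ∈ T} M_i` are good and different from `1` -/
def AllGood {k : ℕ} (M : Fin k → ℕ) (D : ℕ) : Prop := ∀ (T : Finset (Fin k)) (e g : ℕ),
  Squarefree e → D * ∏ i ∈ T, M i = e * g ^ 2 → Good15 e ∧ e ≠ 1

/-- the `M_i` are independent modulo squares -/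
def Indep {ι : Type} (M : ι → ℕ) : Prop :=
  ∀ T : Finset ι, T.Nonempty → ¬ IsSquare (∏ i ∈ T, M i)

/-- the proportion of the `N` of the class which have the property `P` is `c` -/
def Proportion (P : ℕ → Prop) (c : ℝ) : Prop :=
  Tendsto (fun X : ℕ => (((Icc 1 X).filter fun N => Cls N ∧ P N).card : ℝ) /
    (((Icc 1 X).filter fun N => Cls N).card : ℝ)) atTop (nhds c)

/-- the constant `(1 - 1/2) (1 - 1/4) (1 - 1/8) ⋯` -/
noncomputable def c₁ : ℝ := ∏' i : ℕ, (1 - (1 / 2 : ℝ) ^ (i + 1))

theorem aj_of {k : ℕ} {M : Fin k → ℕ} {D : ℕ} (hM : ∀ i, M i % 60 = 1 ∨ M i % 60 = 49)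
    (hD : Cls D) (hG : AllGood M D) : AJOver M D := by
  have hM0 : ∀ i, 0 < M i := fun i => by have := hM i; omega
  have hD0 : 0 < D := Nat.pos_of_ne_zero hD.1.ne_zero
  have hD1 : (D : ℤ) ≠ 0 := by exact_mod_cast hD0.ne'
  intro F _ _ r hr hgen
  obtain ⟨h1, h2, h3⟩ := Pool.Agent.H82.AJ.aj_twists (F := F) (a₀ := -12987) (b₀ := -263466)
    (by norm_num) (Ok := fun e => ∃ D' : ℕ, e = D' ∧ Cls D' ∧ D' ≠ 1 ∧ Good15 D')
    (by
      rintro e - ⟨D', rfl, h1, h2, h3⟩
      obtain ⟨-, -, h4, h5⟩ := Pool.Agent.H3.MQ.q15 h1.1 h1.2 h2 h3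
      exact ⟨h4, h5⟩) (d := D) hD1 (r := r) (m := fun i => (M i : ℤ))
    (fun i => by rw [hr i, Int.cast_natCast]) (fun i => by exact_mod_cast (hM0 i).ne') hgen (by
      intro T e g he heg
      have hP : 0 < ∏ i ∈ T, M i := prod_pos fun i _ => hM0 i
      have hpos : (0 : ℤ) < (D : ℤ) * ∏ i ∈ T, ((M i : ℕ) : ℤ) := by
        rw [← Nat.cast_prod]
        exact_mod_cast Nat.mul_pos hD0 hP
      have he0 : 0 < e := by
        rw [heg] at hpos
        by_contra h
        have := mul_nonpos_of_nonpos_of_nonneg (not_lt.1 h) (sq_nonneg g)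
        omega
      obtain ⟨e', rfl⟩ := Int.eq_ofNat_of_zero_le he0.le
      have heg' : D * ∏ i ∈ T, M i = e' * g.natAbs ^ 2 := by
        have : ((D * ∏ i ∈ T, M i : ℕ) : ℤ) = ((e' * g.natAbs ^ 2 : ℕ) : ℤ) := by
          push_cast
          rw [sq_abs]
          exact heg
        exact_mod_cast this
      have he' : Squarefree e' := Int.squarefree_natCast.1 he
      obtain ⟨h1, h2⟩ := hG T e' g.natAbs he' heg'
      refine ⟨e', rfl, ⟨he', ?_⟩, h2, h1⟩
      have h3 : Pool.Agent.H757_X15.DD.Fm (e' * g.natAbs ^ 2) := by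
        rw [← heg']
        exact Pool.Agent.H3.MQ.cls_mul_dec hD.2
          (Pool.Agent.H3.MQ.fm_prod M (fun i => hM i) T)
      exact Pool.Agent.H3.MQ.cls_part h3)
  refine ⟨?_, h1, h2, h3⟩
  rw [WeierstrassCurve.isElliptic_iff, isUnit_iff_ne_zero]
  exact Pool.Agent.H82.AJ.EK_ne' F (Pool.Agent.H3.MQ.disc15_ne hD1)

/-- **Theorem.** Let `M_1, …, M_k` and `D` be in the class.
(1) If all the squarefree parts of the numbers `D ∏_{i ∈ T} M_i` are good and different from `1`, the
Abel–Jacobi map of `E_D` over `ℚ(√M_1, …, √M_k)` is an isomorphism. (Here the `M_i ≡ 1, 49` modulo `60`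
need not be squarefree.)
(2) If the `M_i` are independent modulo squares, exactly the proportion `c₁ ^ (2 ^ k)` of the `D` of the
class satisfies this condition.
(3) If `D` and the independent `M_1, …, M_k` satisfy this condition, then so do `D` and `N, M_1, …, M_k` for
exactly the proportion `c₁ ^ (2 ^ k)` of the `N` of the class.
(4) For every good `D ≠ 1` there are `M_0 < M_1 < …` in the class, independent modulo squares, such that
the Abel–Jacobi map of `E_D` is an isomorphism over all the number fields `F` in the infinite extension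
`ℚ(√M_0, √M_1, …)` of `ℚ`, that is for all the number fields which are generated by square roots of
finitely many products of the `M_i`. -/
theorem result :
    (∀ (k : ℕ) (M : Fin k → ℕ) (D : ℕ), (∀ i, M i % 60 = 1 ∨ M i % 60 = 49) → Cls D →
      AllGood M D → AJOver M D) ∧
    (∀ (k : ℕ) (M : Fin k → ℕ), (∀ i, Cls (M i)) → Indep M →
      Proportion (fun D => AllGood M D) (c₁ ^ 2 ^ k)) ∧
    (∀ (k : ℕ) (M : Fin k → ℕ) (D : ℕ), (∀ i, Cls (M i)) → Indep M → Cls D → AllGood M D →
      Proportion (fun N => AllGood (Fin.cons N M : Fin (k + 1) → ℕ) D) (c₁ ^ 2 ^ k)) ∧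
    0.2887 < c₁ ∧ c₁ < 0.2888 ∧
    (∀ D : ℕ, Cls D → Good15 D → D ≠ 1 → ∃ M : ℕ → ℕ, StrictMono M ∧ (∀ i, Cls (M i)) ∧ Indep M ∧
      ∀ (k : ℕ) (T : Fin k → Finset ℕ), AJOver (fun i => ∏ l ∈ T i, M l) D) := by
  refine ⟨fun k M D hM hD hG => aj_of hM hD hG, ?_, ?_,
    Pool.Agent.H757_X15.DD.t_LA1.2.2.2.1, Pool.Agent.H757_X15.DD.t_LA1.2.2.2.2, ?_⟩
  · intro k M hM hI
    refine (Pool.Agent.H3.MQ.prop15 M hM hI).congr fun X => ?_
    congr 2
    · congr 1
      ext D
      rw [mem_filter, mem_filter]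
      exact Iff.rfl
    · congr 1
      ext D
      rw [mem_filter, mem_filter]
      exact Iff.rfl
  · intro k M D hM hI hD hG
    refine (Pool.Agent.H82.AJ.law_ext hM hD hI hG).congr fun X => ?_
    congr 2
    · congr 1
      ext D
      rw [mem_filter, mem_filter]
      exact Iff.rfl
    · congr 1
      ext D
      rw [mem_filter, mem_filter]
      exact Iff.rfl
  · intro D hD hG h1
    obtain ⟨M, hM1, hM2, hM3, hM4⟩ := Pool.Agent.H82.AJ.tower hD hG h1
    refine ⟨M, hM1, hM2, hM3, fun k T => aj_of (fun i => ?_) hD ?_⟩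
    · exact Pool.Agent.H82.AJ.fm_sets (fun l => (hM2 l).2) (T i)
    · exact Pool.Agent.H82.AJ.sub_all (fun l => (hM2 l).1.ne_zero) hM4 T

end Pool.Agent.Results.MP_787500_nt.AbelJacobiTwistsLevel15
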