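import Pool.Agent.H51.N15.AJ

/-!
# The Abel–Jacobi isomorphism for `X_0(15)` over a positive proportion of the imaginary quadratic
# fields

The case `i = 0`, `p = 2`: the curve `X` is the elliptic curve
`E = X_0(15) : y² = x³ - 12987 x - 263466`, and the Abel–Jacobi map over the number field `K` is the
Kummer map `ℚ₂ ⊗ E(K) → H¹_f(K, V₂ E)`. All the points of order two of `E` are rational, and `E` has
rational cyclic isogenies of degree four.

Let `-n` be a negative fundamental discriminant, such that `3` is not inert and `5` does not split in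
`ℚ(√-n)`; there is no other restriction, and these are exactly `35 / 96` of all negative fundamental
discriminants. Let `n` be good: there is no squarefree divisor `d` of `n` besides `1` and `core n` such
that the Hilbert symbols `(d, -n)_p` at the odd prime factors `p` of `n` are trivial. (For the `n` of the
class this says that `ℚ(√-n)` has no ideal class of order four; this is not used and not part of the
theorem.) Then the Abel–Jacobi map of `E` over `K = ℚ(√-n)` is an isomorphism, both sides being zero.
The proportion of the good `n` in the class is exactly `c = ∏ (1 - 2^{-i}) = 0.2887...`. Consequently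
the Abel–Jacobi map of `E` is an isomorphism over at least `10.5` per cent of all the imaginary
quadratic fields `K`, ordered by the discriminant.

The two-descent for the twists of `E` by `-n` (with the primes `2`, `3`, `5` dividing `n` allowed) is
new (`Pool.Agent.H51.N15`); the passage to `K` is the theorem `aj_twists` of helper82 and the library
module `X307`, and the density of the criterion is from an unfinished library module
(`Pool.Graph.R_pool_sql_team_seeded_63374d34.N916`).
-/

set_option autoImplicit false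

namespace Pool.Agent.Results.MP_787500_nt.ImaginaryFieldsX015

open NumberField Finset Filter
open Pool.Agent.X307 (AJIso H1f)
open Pool.Agent.TH841.SH.D (Pt)
open scoped Classical

/-- the curve `X_0(15) : y² = x³ - 12987 x - 263466` over the field `K` -/
def curve (K : Type) [Field K] : WeierstrassCurve K :=
  { a₁ := 0, a₂ := 0, a₃ := 0, a₄ := -12987, a₆ := -263466 }

/-- `W` is an elliptic curve over `K`, the 2-adic Abel–Jacobi map `ℚ₂ ⊗ W(K) → H¹_f(K, V₂ W)` is an
isomorphism of vector spaces over `ℚ₂`, the group `W(K)` is finite, and `H¹_f(K, V₂ W)` is zero. -/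
def AJZero (K : Type) [Field K] [NumberField K] (W : WeierstrassCurve K) : Prop :=
  W.IsElliptic ∧ AJIso 2 W ∧ Finite (Pt W K) ∧ ∀ x : H1f 2 W, x = 0

/-- `-n` is a fundamental discriminant -/
def Fund (n : ℕ) : Prop :=
  (Squarefree n ∧ n % 4 = 3) ∨ (∃ N : ℕ, n = 4 * N ∧ Squarefree N ∧ (N % 4 = 1 ∨ N % 4 = 2))

/-- the squarefree number `N` with `ℚ(√-n) = ℚ(√-N)`, for a fundamental discriminant `-n` -/
def core (n : ℕ) : ℕ := if n % 4 = 0 then n / 4 else n

/-- the class: in the field `ℚ(√-n)` the prime `3` is not inert and the prime `5` does not split -/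
def Cls (n : ℕ) : Prop := Fund n ∧ n % 3 ≠ 1 ∧ n % 5 ≠ 1 ∧ n % 5 ≠ 4

/-- the criterion: there is no squarefree divisor `d` of `n` besides `1` and `core n` such that the
Hilbert symbols `(d, -n)_p` at the odd primes `p` dividing `n` are trivial -/
def Good (n : ℕ) : Prop := ∀ d : ℕ, d ∣ n → Squarefree d →
  (∀ p : ℕ, p.Prime → p ≠ 2 → p ∣ n →
    jacobiSym (if p ∣ d then ((d / p * (core n / p) : ℕ) : ℤ) else d) p = 1) →
  d = 1 ∨ d = core n

/-- the Abel–Jacobi map of `X_0(15)` is an isomorphism of zero spaces over `K = ℚ(√-n)`, for every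
number field `K` which is generated by a square root of `-core n` -/
def AJOver (n : ℕ) : Prop :=
  ∀ (K : Type) [Field K] [NumberField K] (r : K), r ^ 2 = -(core n : K) →
    IntermediateField.adjoin ℚ {r} = ⊤ → AJZero K (curve K)

/-- the constant `(1 - 1/2) (1 - 1/4) (1 - 1/8) ⋯` -/
noncomputable def c : ℝ := ∏' i : ℕ, (1 - (1 / 2 : ℝ) ^ (i + 1))

theorem aj {n : ℕ} (hn : Cls n) (hG : Good n) : AJOver n := by
  intro K _ _ r hr hgen
  obtain ⟨hF, h3, h5⟩ := hn
  have h := Pool.Agent.H51.N15.aj_field hF h3 h5 hG K r hr hgen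
  have e : Pool.Agent.N856.MT.EK K (-12987 * 1 ^ 2) (-263466 * 1 ^ 3) = curve K := by
    unfold Pool.Agent.N856.MT.EK curve
    congr 1 <;> push_cast <;> ring
  rw [e] at h
  refine ⟨?_, h⟩
  rw [WeierstrassCurve.isElliptic_iff, isUnit_iff_ne_zero, ← e]
  exact Pool.Agent.H82.AJ.EK_ne' K (by norm_num)

/-- the proportion of the good numbers -/
theorem lim_good : Tendsto (fun X : ℕ => (((Icc 1 X).filter fun n => Cls n ∧ Good n).card : ℝ) /
    (((Icc 1 X).filter Cls).card : ℝ)) atTop (nhds c) := by
  refine Pool.Agent.N916.TE.density_T3.congr fun X => ?_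
  have hcl : ∀ n : ℕ, Cls n ↔ (Pool.Agent.N916.TE.FD n ∧ (n % 3 ≠ 1 ∧ (n % 5 = 0 ∨
      n % 5 = 2 ∨ n % 5 = 3))) := by
    intro n
    refine and_congr Iff.rfl (and_congr Iff.rfl ?_)
    omega
  congr 2
  · refine congrArg card (filter_congr fun n _ => ?_)
    constructor
    · rintro ⟨h1, h2, h3⟩
      exact ⟨(hcl n).2 ⟨h1, h2⟩, (Pool.Agent.H51.N15.good_go h1).2 h3⟩
    · rintro ⟨h1, h2⟩
      obtain ⟨h3, h4⟩ := (hcl n).1 h1
      exact ⟨h3, h4, (Pool.Agent.H51.N15.good_go h3).1 h2⟩
  · exact congrArg card (filter_congr fun n _ => (hcl n).symm)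

/-- the proportion of the class -/
theorem lim_cls : Tendsto (fun X : ℕ => (((Icc 1 X).filter Cls).card : ℝ) /
    (((Icc 1 X).filter Fund).card : ℝ)) atTop (nhds (35 / 96)) := by
  refine Pool.Agent.H51.N15.prop_class.congr fun X => ?_
  congr 2
  exact congrArg card (filter_congr fun n _ => Iff.rfl)

/-- **The Abel–Jacobi isomorphism for `X_0(15)` over imaginary quadratic fields.** -/
theorem result :
    (∀ n : ℕ, Cls n → Good n → AJOver n) ∧
    Tendsto (fun X : ℕ => (((Icc 1 X).filter fun n => Cls n ∧ Good n).card : ℝ) /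
      (((Icc 1 X).filter Cls).card : ℝ)) atTop (nhds c) ∧
    Tendsto (fun X : ℕ => (((Icc 1 X).filter Cls).card : ℝ) /
      (((Icc 1 X).filter Fund).card : ℝ)) atTop (nhds (35 / 96)) ∧
    0.2887 < c ∧ c < 0.2889 ∧
    ∀ᶠ X : ℕ in atTop, 0.105 * (((Icc 1 X).filter Fund).card : ℝ) ≤
      (((Icc 1 X).filter fun n => Fund n ∧ AJOver n).card : ℝ) := by
  have hc : 0.2887 < c ∧ c < 0.2889 := Pool.Agent.N916.GB.eta_bounds
  refine ⟨fun n h1 h3 => aj h1 h3, lim_good, lim_cls, hc.1, hc.2, ?_⟩
  have h1 := lim_good.mul lim_cls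
  have h2 : 0.105 < c * (35 / 96) := by
    have := hc.1
    norm_num at this ⊢
    linarith
  filter_upwards [h1.eventually (lt_mem_nhds h2)] with X h4
  set G := (((Icc 1 X).filter fun n => Cls n ∧ Good n).card : ℝ) with hG
  set C := (((Icc 1 X).filter Cls).card : ℝ) with hC
  set F := (((Icc 1 X).filter Fund).card : ℝ) with hF
  have hC0 : C ≠ 0 := by
    intro h0
    rw [h0] at h4
    norm_num at h4
  have hF0 : 0 < F := by
    have h5 : 0 ≤ F := Nat.cast_nonneg _
    rcases h5.lt_or_eq with h6 | h6
    · exact h6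
    · rw [← h6] at h4
      norm_num at h4
  have h6 : G / C * (C / F) = G / F := div_mul_div_cancel₀ hC0
  rw [h6, lt_div_iff₀ hF0] at h4
  have h7 : G ≤ (((Icc 1 X).filter fun n => Fund n ∧ AJOver n).card : ℝ) := by
    rw [hG]
    have h8 : ((Icc 1 X).filter fun n => Cls n ∧ Good n) ⊆
        ((Icc 1 X).filter fun n => Fund n ∧ AJOver n) := by
      intro n hn
      obtain ⟨h9, h10, h11⟩ := mem_filter.1 hn
      exact mem_filter.2 ⟨h9, h10.1, aj h10 h11⟩
    exact_mod_cast card_le_card h8
  linarith

end Pool.Agent.Results.MP_787500_nt.ImaginaryFieldsX015
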