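import Pool.Agent.H16.FL.Exi

/-!
# Selmer groups with ordinary local conditions do not grow in most cyclic extensions of degree `p`

Let `p` be an odd prime number and `K` a number field which contains a primitive `p`-th root of unity, with `r₂` complex
places. Let `S` be a finite set of primes of `K` which contains the primes above `p`.

We consider all continuous representations `V = ℚ_p ^ N` of the absolute Galois group `G_K`, of all dimensions `N`, which are
unramified outside `S` and have a stable lattice `T = ℤ_p ^ N` on which `G_K` acts trivially modulo `p`, together with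
filtrations `V⁺ ⊆ V` at the places above the primes of `S`, such that for `v ∈ S` the reduction modulo `p` of `T ∩ V⁺` is
spanned by the basis vectors `e_j`, `j ∈ J(v)`. The Selmer group `Sel(L, V)` over a finite extension `L` of `K` consists of the
classes in `H ^ 1 (L, V)` which are unramified at the places not above `S` and which come from `H ^ 1 (L_w, V⁺)` at the
places `w` above `S`. For example, if `V` is ordinary at `p` (the Tate module of an abelian variety with good ordinary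
reduction at `p`, or `H ^ (2 i + 1) (E_1 × ... × E_(2 i + 1)) (i + 1)` for elliptic curves with good ordinary reduction at `p`),
`V⁺` is the usual filtration above `p` and `V⁺ = 0` at the other places, this is the Selmer group `H ^ 1 _f (L, V)` of Bloch and
Kato.

Theorem. Let `𝓑` be a finite collection of sets of primes of `K`. Among the cyclic extensions `L = K (d ^ (1/p))` of
degree `p` with prescribed completions above the prime numbers `≤ y` (those of a `K (d₀ ^ (1/p))` in which no prime of `S`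
splits and the primes in the elements of `𝓑` are unramified) and with prescribed orders different from `0` modulo
`p` of `d` at `k` further primes, the share of those with

  `Sel(L, V) = ` the image of `Sel(K, V)`

**for all** `N`, `V` and `V⁺` for which each of the sets `{v ∈ S | j ∈ J(v)}`, `j = 1, ..., N`, is contained in an element `b` of
`𝓑`, or in the complement of an element `b` of `𝓑` with `deg b = r₂`, is at least

  `1 - ε - ∑_(b ∈ 𝓑) p ^ (deg b - r₂) / (p - 1)`,  `deg b = ∑ [K_v : ℚ_p]` over the `v ∈ b` above `p`.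

The most important case is that of self-dual `V`: let `(p) = 𝔞 𝔟` with coprime ideals of equal norm (then `deg b = r₂` for
the set `b` of the primes dividing `𝔞`), and let `J(v)` be `J` for `v ∣ 𝔞` and the complement of `J` for `v ∣ 𝔟`. In the case of
an elliptic curve with full rational `p`-torsion this means that the kernels of reduction contain one subgroup of order
`p` of `E[p]` above `𝔞` and another one above `𝔟`. For a share of at least `1 - 1 / (p - 1) - ε` of the `L` (so also for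
`p = 3`) no such `V` of any dimension has a larger Selmer group over `L`. The first part of the theorem says that there are
numbers `d₀` as required: such that no prime of `S` splits and all primes of `S` are unramified in `K (d₀ ^ (1/p))`.

Proof. Let `χ` be the character of order `p` of `L`. A class of `Sel(L, V)` which does not come from `K` gives a cocycle of
`G_K` with values in `T ⊗ O(χ)`, `O = ℤ_p[ζ_p]`, which is not zero modulo the uniformizer; as the
action on the reduction is trivial, its coordinates are homomorphisms `G_K → F_p`, that is classes `κ_j` in `K^* / p`, and the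
local conditions, together with the fact that the cup product with `χ` is zero by the next step of the approximation,
give: `κ_j` is locally a power of `d` at the places where `L / K` is ramified and at the `v ∈ S` with `j ∉ J(v)`, and a unit
at the others. These conditions do not depend on `V`. For `b` and its complement they are orthogonal for the Hilbert
symbols, so by the law of reciprocity the numbers of solutions are equal if `deg b = r₂`. The number of the solutions is
estimated on average over the ensemble by the method of Swinnerton-Dyer (project LK of helper7, `S_SHARE` in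
`Pool/Agent/Q7/LK/Stm.lean`). Single (infinitely many) fields, for `J(v)` empty or everything, are in
`MP_787500_nt.GoingUpResiduallyTrivial`.
-/

set_option autoImplicit false

namespace Pool.Agent.Results.MP_787500_nt.MostExtensionsOrdinary

open NumberField IsDedekindDomain Filter Topology

/-! ### The Galois groups, the decomposition groups and the inertia groups -/

/-- An algebraic closure of the number field `K`. -/
abbrev Bar (K : Type) [Field K] : Type := AlgebraicClosure K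

/-- The absolute Galois group of `K`. -/
abbrev Gal (K : Type) [Field K] : Type := Bar K ≃ₐ[K] Bar K

/-- The absolute Galois group of the field `L` between `K` and its algebraic closure. -/
abbrev GalL {K : Type} [Field K] (L : IntermediateField K (Bar K)) : Type := L.fixingSubgroup

/-- The maximal ideal `Q` of the ring of all algebraic integers lies above the prime `v` of `K`. -/
def Above {K : Type} [Field K] (Q : Ideal (𝓞 (Bar K))) (v : HeightOneSpectrum (𝓞 K)) : Prop :=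
  Q.IsMaximal ∧ Q.comap (algebraMap (𝓞 K) (𝓞 (Bar K))) = v.asIdeal

/-- The element `σ` of the Galois group maps the maximal ideal `Q` to `Q'`. -/
def Maps {K : Type} [Field K] (σ : Gal K) (Q Q' : Ideal (𝓞 (Bar K))) : Prop :=
  ∀ x : 𝓞 (Bar K), x ∈ Q ↔ σ • x ∈ Q'

/-- The decomposition group in the absolute Galois group of `L` of the maximal ideal `Q` of the ring
of all algebraic integers: the `σ` such that `σ Q = Q`. -/
def Dec {K : Type} [Field K] (L : IntermediateField K (Bar K)) (Q : Ideal (𝓞 (Bar K))) :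
    Set (GalL L) :=
  {σ | Maps (σ : Gal K) Q Q}

/-- The inertia group: the `σ` such that `σ x` is congruent to `x` modulo `Q` for all `x`. -/
def Inr {K : Type} [Field K] (L : IntermediateField K (Bar K)) (Q : Ideal (𝓞 (Bar K))) :
    Set (GalL L) :=
  {σ | ∀ x : 𝓞 (Bar K), (σ : Gal K) • x - x ∈ Q}

/-- The prime `v` of `K` is unramified in `K(d ^ (1/p))`: the inertia groups above `v` fix the `p`-th roots of `d`. -/
def RootUnramified (p : ℕ) {K : Type} [Field K] (d : K) (v : HeightOneSpectrum (𝓞 K)) : Prop :=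
  ∀ Q : Ideal (𝓞 (Bar K)), Above Q v → ∀ σ : Gal K, (∀ x : 𝓞 (Bar K), σ • x - x ∈ Q) →
    ∀ x : Bar K, x ^ p = algebraMap K (Bar K) d → σ x = x

/-! ### The representations, the filtrations and the Selmer groups -/

section rep

variable {K : Type} [Field K] {p : ℕ} [Fact p.Prime] {N : ℕ}

/-- `ρ` is a continuous representation of the absolute Galois group of `K` on `T = ℤ_p ^ N`, trivial modulo
`p` and unramified outside `S`. -/
structure IsRep (S : Set (HeightOneSpectrum (𝓞 K)))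
    (ρ : Gal K →* Matrix (Fin N) (Fin N) ℤ_[p]) : Prop where
  cont : Continuous ρ
  congr : ∀ σ i j, (p : ℤ_[p]) ∣ (ρ σ - 1) i j
  unramified : ∀ v ∉ S, ∀ Q : Ideal (𝓞 (Bar K)), Above Q v → ∀ σ : Gal K,
    (∀ x : 𝓞 (Bar K), σ • x - x ∈ Q) → ρ σ = 1

/-- The action on `V = ℚ_p ^ N`. -/
noncomputable def act (ρ : Gal K →* Matrix (Fin N) (Fin N) ℤ_[p]) (σ : Gal K)
    (x : Fin N → ℚ_[p]) : Fin N → ℚ_[p] :=
  ((ρ σ).map (algebraMap ℤ_[p] ℚ_[p])).mulVec x

/-- A filtration of `V` at the places above the primes of `S`: for each maximal ideal `Q` above a prime of `S` (which is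
a place of the algebraic closure) a subspace `W Q = V⁺` of `V`, compatible with the action of the Galois group (in particular
`W Q` is stable under the decomposition group of `Q`), such that the reduction modulo `p` of `T ∩ W Q` is the subspace of
`F_p ^ N` which is spanned by the basis vectors `e_i`, `i ∈ J v`, if `Q` lies above `v`. -/
structure IsFiltration (S : Set (HeightOneSpectrum (𝓞 K))) (ρ : Gal K →* Matrix (Fin N) (Fin N) ℤ_[p])
    (J : HeightOneSpectrum (𝓞 K) → Set (Fin N))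
    (W : Ideal (𝓞 (Bar K)) → Submodule ℚ_[p] (Fin N → ℚ_[p])) : Prop where
  equivariant : ∀ v ∈ S, ∀ Q : Ideal (𝓞 (Bar K)), Above Q v → ∀ (σ : Gal K) (Q' : Ideal (𝓞 (Bar K))),
    Maps σ Q Q' → ∀ x ∈ W Q, act ρ σ x ∈ W Q'
  reduction_le : ∀ v ∈ S, ∀ Q : Ideal (𝓞 (Bar K)), Above Q v → ∀ x : Fin N → ℤ_[p],
    (fun i => (x i : ℚ_[p])) ∈ W Q → ∀ i, i ∉ J v → (p : ℤ_[p]) ∣ x i
  le_reduction : ∀ v ∈ S, ∀ Q : Ideal (𝓞 (Bar K)), Above Q v → ∀ i ∈ J v, ∃ x : Fin N → ℤ_[p],
    (fun i => (x i : ℚ_[p])) ∈ W Q ∧ ∀ j, (p : ℤ_[p]) ∣ x j - (if j = i then 1 else 0)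

variable {L : IntermediateField K (Bar K)}

/-- The continuous cocycles of the absolute Galois group of `L` with values in `V`. -/
structure IsCocycle (ρ : Gal K →* Matrix (Fin N) (Fin N) ℤ_[p]) (c : GalL L → Fin N → ℚ_[p]) :
    Prop where
  cont : Continuous c
  mul : ∀ σ τ, c (σ * τ) = c σ + act ρ σ (c τ)

/-- The restriction of `c` to the subset `D` is a coboundary with values in `V / W`. -/
def TrivialModulo (ρ : Gal K →* Matrix (Fin N) (Fin N) ℤ_[p]) (W : Submodule ℚ_[p] (Fin N → ℚ_[p]))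
    (D : Set (GalL L)) (c : GalL L → Fin N → ℚ_[p]) : Prop :=
  ∃ x : Fin N → ℚ_[p], ∀ σ ∈ D, c σ - (act ρ σ x - x) ∈ W

/-- The local conditions: at the places above the primes of `S` the class becomes zero in `H ^ 1 (L_w, V / V⁺)`, and it is
unramified at the places above the primes outside `S`. -/
structure InSelmer (S : Set (HeightOneSpectrum (𝓞 K))) (ρ : Gal K →* Matrix (Fin N) (Fin N) ℤ_[p])
    (W : Ideal (𝓞 (Bar K)) → Submodule ℚ_[p] (Fin N → ℚ_[p])) (c : GalL L → Fin N → ℚ_[p]) : Prop where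
  ordinary : ∀ v ∈ S, ∀ Q : Ideal (𝓞 (Bar K)), Above Q v → TrivialModulo ρ (W Q) (Dec L Q) c
  outside : ∀ v ∉ S, ∀ Q : Ideal (𝓞 (Bar K)), Above Q v → TrivialModulo ρ ⊥ (Inr L Q) c

/-- The Selmer group of `V` over `L` is the image of the Selmer group of `V` over `K`: every cocycle
`c` in the first one differs by a coboundary from the restriction of a cocycle `c'` in the second one. -/
def SelmerComesFromBase (S : Set (HeightOneSpectrum (𝓞 K))) (ρ : Gal K →* Matrix (Fin N) (Fin N) ℤ_[p])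
    (W : Ideal (𝓞 (Bar K)) → Submodule ℚ_[p] (Fin N → ℚ_[p])) (L : IntermediateField K (Bar K)) : Prop :=
  ∀ c : GalL L → Fin N → ℚ_[p], IsCocycle ρ c → InSelmer S ρ W c →
    ∃ c' : GalL (⊥ : IntermediateField K (Bar K)) → Fin N → ℚ_[p], IsCocycle ρ c' ∧
      InSelmer S ρ W c' ∧ ∃ x : Fin N → ℚ_[p],
        ∀ (σ : GalL L) (τ : GalL (⊥ : IntermediateField K (Bar K))),
          (τ : Gal K) = (σ : Gal K) → c σ = c' τ + (act ρ σ x - x)

end rep

/-! ### The ensemble of cyclic extensions -/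

section ensemble

variable {K : Type} [Field K] [NumberField K]

/-- The order of `a` at `v` modulo `p`. -/
noncomputable def orderMod (p : ℕ) (v : HeightOneSpectrum (𝓞 K)) (a : K) : ZMod p :=
  -((WithZero.log (v.valuation K a) : ℤ) : ZMod p)

/-- `a` is the `p`-th power of a nonzero element of the completion of `K` at `v`. -/
def PowerAt (p : ℕ) (v : HeightOneSpectrum (𝓞 K)) (a : K) : Prop :=
  a ≠ 0 ∧ ∃ s : v.adicCompletion K, (a : v.adicCompletion K) = s ^ p

/-- `v` lies above a prime number `l ≤ y`. -/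
def Small (y : ℕ) (v : HeightOneSpectrum (𝓞 K)) : Prop :=
  ∃ l : ℕ, l.Prime ∧ l ≤ y ∧ (l : 𝓞 K) ∈ v.asIdeal

open Classical in
/-- Among the primes not above prime numbers `≤ y` the order of `d` modulo `p` is `z i` at the prime `q i` and `0` at the
others; and at the primes above prime numbers `≤ y` the number `d` is equal to `d₀` up to local `p`-th powers. So for
nonzero `z i` and different `q i` the extension `K(d^(1/p))` is ramified, among the primes not above prime numbers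
`≤ y`, exactly at the `q i`, and its completions at the other primes are those of `K(d₀^(1/p))`. -/
structure Fits (p y : ℕ) (d₀ : K) {k : ℕ} (z : Fin k → ZMod p) (q : Fin k → HeightOneSpectrum (𝓞 K)) (d : K) :
    Prop where
  ne : d ≠ 0
  ram : ∀ v : HeightOneSpectrum (𝓞 K), ¬ Small y v → orderMod p v d = ∑ i, if q i = v then z i else 0
  loc : ∀ v : HeightOneSpectrum (𝓞 K), Small y v → PowerAt p v (d / d₀)

/-- The ensemble: the tuples of `k` different primes `q i`, not above prime numbers `≤ y`, of norm `≤ X i`, to which a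
`d` belongs. -/
def Ensemble (p y : ℕ) (d₀ : K) {k : ℕ} (z : Fin k → ZMod p) (X : Fin k → ℕ) : Set (Fin k → HeightOneSpectrum (𝓞 K)) :=
  {q | (Function.Injective q ∧ ∀ i, ¬ Small y (q i) ∧ Ideal.absNorm (q i).asIdeal ≤ X i) ∧
    ∃ d, Fits p y d₀ z q d}

open Classical in
/-- `∑ [K_v : ℚ_p]` over the primes `v` above `p` in the set `b`. -/
noncomputable def deg (p : ℕ) (b : Set (HeightOneSpectrum (𝓞 K))) : ℕ :=
  ∑ᶠ v : HeightOneSpectrum (𝓞 K), if v ∈ b ∧ (p : 𝓞 K) ∈ v.asIdeal then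
    v.asIdeal.ramificationIdx ℤ * v.asIdeal.inertiaDeg ℤ else 0

end ensemble

/-- `P X` is true for all large `X 0`, for all `X 1` which are large in terms of `X 0`, …, for all `X (k-1)` which are
large in terms of the others. -/
def Nested : (k : ℕ) → ((Fin k → ℕ) → Prop) → Prop
  | 0, P => P Fin.elim0
  | k + 1, P => Nested k fun X => ∀ᶠ x : ℕ in atTop, P (Fin.snoc (α := fun _ => ℕ) X x)

/-! ### Proof -/

section proof

open Pool.Agent.H16.FL Pool.Agent.NH7.BK
open Pool.Agent.NH7.Sch (kp kerX mem_kerX kp_mul_right mv mem_mv)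
open Pool.Agent.NH7.GU (Qv Qv_max Qv_comap)

theorem nested_iff : ∀ (k : ℕ) (P : (Fin k → ℕ) → Prop), Nested k P ↔ Q283.LQ.Nest k P
  | 0, _ => Iff.rfl
  | k + 1, _ => nested_iff k _

variable {K : Type} [Field K] [NumberField K] {p : ℕ} [hp : Fact p.Prime]

theorem fits_iff {y : ℕ} {d₀ : K} {k : ℕ} {z : Fin k → ZMod p}
    {q : Fin k → HeightOneSpectrum (𝓞 K)} {d : K} : Fits p y d₀ z q d ↔ Q7.LK.Fits p y d₀ z q d := by
  constructor
  · intro h
    exact ⟨h.ne, h.ram, fun v hv => (Q7.LK.t_CPL p K v _).mpr (h.loc v hv)⟩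
  · intro h
    exact ⟨h.ne, h.ram, fun v hv => (Q7.LK.t_CPL p K v _).mp (h.loc v hv)⟩

omit hp in
theorem deg_eq (b : Set (HeightOneSpectrum (𝓞 K))) : ∑ᶠ v, cB p b v = deg p b := by
  classical
  unfold deg
  refine finsum_congr fun v => ?_
  unfold cB Q7.LK.dv Q7.LK.Dp
  by_cases h1 : v ∈ b <;> by_cases h2 : (p : 𝓞 K) ∈ v.asIdeal <;> simp [h1, h2]

/-- the complement of the bad set -/
theorem compl_bound {α : Type} {E B G : Set α} (hE : E.Finite) (hB : B ⊆ E) (hG : G ⊆ E) (h : ∀ q ∈ E, q ∈ B ∨ q ∈ G)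
    {b : ℝ} (hb : (B.ncard : ℝ) ≤ b * E.ncard) : (1 - b) * E.ncard ≤ (G.ncard : ℝ) := by
  have h1 : E ⊆ B ∪ G := fun q hq => h q hq
  have h2 := Set.ncard_le_ncard h1 ((hE.subset hB).union (hE.subset hG))
  have h3 := Set.ncard_union_le B G
  have h4 : (E.ncard : ℝ) ≤ B.ncard + G.ncard := by exact_mod_cast h2.trans h3
  have h5 : (1 - b) * (E.ncard : ℝ) = E.ncard - b * E.ncard := by ring
  rw [h5]
  linarith

omit [NumberField K] in
theorem maps_mv {σ : Gal K} {Q Q' : Ideal (𝓞 (Bar K))} (h : Maps σ Q Q') : Q' = mv σ Q := by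
  ext x
  rw [mem_mv, h]
  rw [smul_inv_smul]

theorem fil_of {S : Set (HeightOneSpectrum (𝓞 K))} {N : ℕ} {ρ : Gal K →* Matrix (Fin N) (Fin N) ℤ_[p]}
    {J : HeightOneSpectrum (𝓞 K) → Set (Fin N)}
    {W : Ideal (𝓞 (Bar K)) → Submodule ℚ_[p] (Fin N → ℚ_[p])} (h : IsFiltration S ρ J W) :
    FilK S (fun v i => i ∈ J v) ρ W := by
  refine ⟨fun v hv Q hQ hQv g x hx => ?_, fun v hv Q hQ hQv x hx i hi => ?_, fun v hv Q hQ hQv i hi => ?_⟩
  · exact h.equivariant v hv Q ⟨hQ, hQv⟩ g (mv g Q) (fun y => by rw [mem_mv, inv_smul_smul]) x hx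
  · exact h.reduction_le v hv Q ⟨hQ, hQv⟩ x hx i hi
  · obtain ⟨x, hx, hx2⟩ := h.le_reduction v hv Q ⟨hQ, hQv⟩ i hi
    refine ⟨x, hx, fun j => ?_⟩
    rw [Matrix.one_apply]
    exact hx2 j

theorem comes {ζ : K} (hζ : IsPrimitiveRoot ζ p) {S : Set (HeightOneSpectrum (𝓞 K))} {N : ℕ}
    {ρ : Gal K →* Matrix (Fin N) (Fin N) ℤ_[p]}
    {W : Ideal (𝓞 (Bar K)) → Submodule ℚ_[p] (Fin N → ℚ_[p])} (D : Kˣ) {x : Bar K}
    (hx : x ^ p = algebraMap K (Bar K) D)
    (h : ∀ c : kerX (kp_mul_right hζ D) → Fin N → ℚ_[p], SelK S ρ W (kerX (kp_mul_right hζ D)) c →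
      ∃ c' : (⊤ : Subgroup (Gal K)) → Fin N → ℚ_[p], SelK S ρ W ⊤ c' ∧ ∃ x : Fin N → ℚ_[p],
      ∀ (σ : kerX (kp_mul_right hζ D)) (τ : (⊤ : Subgroup (Gal K))), (τ : Gal K) = σ →
        c σ = c' τ + (mQ (ρ σ) x - x)) :
    SelmerComesFromBase S ρ W (IntermediateField.adjoin K {x}) := by
  have hfix := fix_adjoin hζ D hx
  have hk : ∀ g : kerX (kp_mul_right hζ D),
      (g : Gal K) ∈ (IntermediateField.adjoin K {x}).fixingSubgroup := fun g => by
    rw [hfix]
    exact g.2
  intro c hc hsel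
  have h1 : SelK S ρ W (kerX (kp_mul_right hζ D)) fun x => c ⟨x, hk x⟩ := by
    refine ⟨hc.cont.comp (Continuous.subtype_mk continuous_subtype_val _),
      fun s t => hc.mul ⟨s, hk s⟩ ⟨t, hk t⟩, fun v hv Q hQ hQv => ?_, fun v hv Q hQ hQv => ?_⟩
    · obtain ⟨x, hx⟩ := hsel.outside v hv Q ⟨hQ, hQv⟩
      refine ⟨x, fun s hs' => ?_⟩
      have h2 := hx ⟨s, hk s⟩ hs'
      rw [Submodule.mem_bot, sub_eq_zero] at h2
      exact h2
    · obtain ⟨x, hx⟩ := hsel.ordinary v hv Q ⟨hQ, hQv⟩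
      exact ⟨x, fun s hs' => hx ⟨s, hk s⟩ (fun y => hs' y)⟩
  obtain ⟨c', hc', x, hx⟩ := h _ h1
  refine ⟨fun x => c' ⟨x, Subgroup.mem_top _⟩, ⟨hc'.cont.comp
      (Continuous.subtype_mk continuous_subtype_val _),
      fun s t => hc'.mul ⟨s, Subgroup.mem_top _⟩ ⟨t, Subgroup.mem_top _⟩⟩,
    ⟨fun v hv Q hQ => ?_, fun v hv Q hQ => ?_⟩, x,
    fun s t hst => hx ⟨s, by rw [← hfix]; exact s.2⟩ ⟨t, Subgroup.mem_top _⟩ hst⟩
  · obtain ⟨y, hy⟩ := hc'.flag v hv Q hQ.1 hQ.2
    exact ⟨y, fun s hs' => hy ⟨s, Subgroup.mem_top _⟩ (fun z => hs' z)⟩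
  · obtain ⟨y, hy⟩ := hc'.away v hv Q hQ.1 hQ.2
    refine ⟨y, fun s hs' => ?_⟩
    rw [Submodule.mem_bot, sub_eq_zero]
    exact hy ⟨s, Subgroup.mem_top _⟩ hs'

end proof

/-- **Main result.** -/
theorem result (p : ℕ) [Fact p.Prime] (hp : p ≠ 2) (K : Type) [Field K] [NumberField K]
    (hK : ∃ ζ : K, IsPrimitiveRoot ζ p) (S : Set (HeightOneSpectrum (𝓞 K))) (hS : S.Finite)
    (hpS : ∀ v : HeightOneSpectrum (𝓞 K), (p : 𝓞 K) ∈ v.asIdeal → v ∈ S)
    (𝓑 : Finset (Set (HeightOneSpectrum (𝓞 K)))) :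
    (∃ d₀ : K, d₀ ≠ 0 ∧ (∀ v ∈ S, ¬ PowerAt p v d₀) ∧ ∀ v ∈ S, RootUnramified p d₀ v) ∧
    ∃ y₀ : ℕ, ∀ y, y₀ ≤ y → ∀ d₀ : K, d₀ ≠ 0 → (∀ v ∈ S, ¬ PowerAt p v d₀) →
      (∀ b ∈ 𝓑, ∀ v ∈ S, (v ∈ b ∨ deg p b = InfinitePlace.nrComplexPlaces K) → RootUnramified p d₀ v) →
      (∀ (k : ℕ) (z : Fin k → ZMod p) (q : Fin k → HeightOneSpectrum (𝓞 K)) (d d' : K),
        Fits p y d₀ z q d → Fits p y d₀ z q d' → ∃ x : K, d = d' * x ^ p) ∧
      ∀ ε : ℝ, 0 < ε → ∃ k₀ : ℕ, ∀ k, k₀ ≤ k → ∀ z : Fin k → ZMod p, (∀ i, z i ≠ 0) → Nested k fun X =>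
        (Ensemble p y d₀ z X).Finite ∧ (Ensemble p y d₀ z X).Nonempty ∧
        (1 - ∑ b ∈ 𝓑, (p : ℝ) ^ deg p b * (1 / (p : ℝ)) ^ InfinitePlace.nrComplexPlaces K / (p - 1) - ε) *
            (Ensemble p y d₀ z X).ncard ≤
          ({q ∈ Ensemble p y d₀ z X | ∀ (d : K) (x : Bar K), Fits p y d₀ z q d → x ^ p = algebraMap K (Bar K) d →
            ∀ (N : ℕ) (ρ : Gal K →* Matrix (Fin N) (Fin N) ℤ_[p]), IsRep S ρ →
            ∀ (J : HeightOneSpectrum (𝓞 K) → Set (Fin N))
              (W : Ideal (𝓞 (Bar K)) → Submodule ℚ_[p] (Fin N → ℚ_[p])), IsFiltration S ρ J W →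
            (∀ j : Fin N, ∃ b ∈ 𝓑, {v ∈ S | j ∈ J v} ⊆ b ∨
              (deg p b = InfinitePlace.nrComplexPlaces K ∧ {v ∈ S | j ∈ J v} ⊆ bᶜ)) →
            SelmerComesFromBase S ρ W (IntermediateField.adjoin K {x})}.ncard : ℝ) := by
  obtain ⟨ζ, hζ⟩ := hK
  refine ⟨?_, ?_⟩
  · obtain ⟨v₁, hv₁⟩ := Pool.Agent.H16.FL.exists_dp (K := K) p
    obtain ⟨d₀, h1, h2, h3⟩ := Pool.Agent.H16.FL.exists_nice hζ hS ⟨v₁, hpS v₁ hv₁⟩
    exact ⟨d₀, h1, fun v hv h => h2 v hv ((Q7.LK.t_CPL p K v _).mpr h),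
      fun v hv Q hQ σ hσ x hx => h3 v hv Q hQ.1 hQ.2 σ hσ x hx⟩
  obtain ⟨y1, hy1⟩ := Pool.Agent.H16.FL.share (K := K) (p := p) hp hζ
  obtain ⟨y2, hy2⟩ := Q7.LK.uniq Q7.LK.t_BAS Q7.LK.t_BASE p hp K ζ hζ
  have hex : ∃ y3 : ℕ, ∀ v ∈ S, ∃ l : ℕ, l.Prime ∧ l ≤ y3 ∧ (l : 𝓞 K) ∈ v.asIdeal := by
    choose l hl hlv using fun v : HeightOneSpectrum (𝓞 K) => Pool.Agent.H16.FL.exists_below v
    refine ⟨hS.toFinset.sup l, fun v hv => ⟨l v, hl v, ?_, hlv v⟩⟩
    exact Finset.le_sup (hS.mem_toFinset.2 hv)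
  obtain ⟨y3, hy3⟩ := hex
  refine ⟨max (max y1 y2) y3, fun y hy d₀ hd₀ hns hunr => ⟨fun k z q d d' hd hd' => ?_, fun ε hε => ?_⟩⟩
  · obtain ⟨x, hx⟩ := hy2 y (le_trans (le_max_right _ _) (le_trans (le_max_left _ _) hy)) d₀ hd₀ k z q d d'
      (fits_iff.mp hd) (fits_iff.mp hd')
    refine ⟨x, ?_⟩
    rw [← hx, mul_div_cancel₀ _ hd'.ne]
  obtain ⟨k0, hk0⟩ := hy1 y (le_trans (le_max_left _ _) (le_trans (le_max_left _ _) hy)) d₀ hd₀ 𝓑 ε hε
  refine ⟨k0, fun k hk z hz => (nested_iff k _).mpr (Q14.LK.nest_mono k (fun X hX => ?_) (hk0 k hk z hz))⟩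
  obtain ⟨hfin, hpos, hN⟩ := hX
  have hE : Ensemble p y d₀ z X =
      {q ∈ (Q283.LQ.Box y X : Set (Fin k → HeightOneSpectrum (𝓞 K))) | ∃ d, Q7.LK.Fits p y d₀ z q d} := by
    ext q
    simp only [Ensemble, Q283.LQ.Box, Set.mem_ofPred_eq, fits_iff]
    rfl
  have hEfin : (Ensemble p y d₀ z X).Finite := by
    rw [hE]
    exact hfin.subset (fun q hq => hq.1)
  rw [← hE] at hpos hN
  have hSy : ∀ v ∈ S, Q283.LQ.Sm y v := by
    intro v hv
    obtain ⟨l, hl, hly, hlv⟩ := hy3 v hv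
    exact ⟨l, hl, hly.trans (le_trans (le_max_right _ _) hy), hlv⟩
  refine ⟨hEfin, ?_, ?_⟩
  · rw [← Set.ncard_pos hEfin]
    exact_mod_cast hpos
  · have hsum : ∑ b ∈ 𝓑, (p : ℝ) ^ deg p b * (1 / (p : ℝ)) ^ InfinitePlace.nrComplexPlaces K / (p - 1) =
        ∑ b ∈ 𝓑, Pool.Agent.H16.FL.bd p b :=
      Finset.sum_congr rfl fun b _ => by rw [Pool.Agent.H16.FL.bd, deg_eq]
    rw [hsum, sub_sub]
    refine compl_bound hEfin (B := {q ∈ (Q283.LQ.Box y X : Set (Fin k → HeightOneSpectrum (𝓞 K))) |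
      ∃ D, Q7.LK.Fits p y d₀ z q D ∧ ∃ b ∈ 𝓑, Q7.LK.Bad p (Pool.Agent.H16.FL.AB p b) D})
      (fun q hq => ?_) (fun q hq => hq.1) (fun q hq => ?_) hN
    · rw [hE]
      obtain ⟨h1, D, h2, -⟩ := hq
      exact ⟨h1, D, h2⟩
    · by_cases hc : ∃ D, Q7.LK.Fits p y d₀ z q D ∧ ∃ b ∈ 𝓑, Q7.LK.Bad p (Pool.Agent.H16.FL.AB p b) D
      · left
        rw [hE] at hq
        exact ⟨hq.1, hc⟩
      · right
        refine ⟨hq, fun d x hd hx N ρ hρ J W hW hJ => ?_⟩
        have hd' := fits_iff.mp hd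
        refine comes hζ (Units.mk0 d hd.ne) hx fun c hc' => ?_
        exact Pool.Agent.H16.FL.good_of_fits' hp hζ hpS hSy hd₀
          (fun v hv h => hns v hv ((Q7.LK.t_CPL p K v _).mp h)) (𝓑 : Set (Set (HeightOneSpectrum (𝓞 K))))
          (fun b hb v hv hvb g hg x hx => hunr b hb v hv (by rwa [deg_eq] at hvb) (Pool.Agent.NH7.GU.Qv v)
            ⟨Pool.Agent.NH7.GU.Qv_max v, Pool.Agent.NH7.GU.Qv_comap v⟩ g hg x hx)
          (Units.mk0 d hd.ne) hd' (fun b hb hbad => hc ⟨d, hd', b, hb, hbad⟩) ρ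
          ⟨hρ.cont, hρ.congr, fun v hv Q hQ hQv g hg => hρ.unramified v hv Q ⟨hQ, hQv⟩ g hg⟩
          (fun v i => i ∈ J v) W (fil_of hW) (fun j => by
            obtain ⟨b, hb, hbJ | ⟨hbal, hbJ⟩⟩ := hJ j
            · exact ⟨b, Or.inl hb, fun v hv hj => hbJ ⟨hv, hj⟩⟩
            · exact ⟨bᶜ, Or.inr ⟨b, hb, by rw [deg_eq]; exact hbal, rfl⟩,
                fun v hv hj => hbJ ⟨hv, hj⟩⟩) c hc'

end Pool.Agent.Results.MP_787500_nt.MostExtensionsOrdinary
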